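import Pool.Agent.H40.Zc1

set_option autoImplicit false

namespace Pool.Agent.Results.MP_fa4505_lc.Yes

open Pool.Agent.H40.Bspt Pool.Agent.H40.Jz

/-- `(P, S)` is the Cantor cube `2 ^ J`: a point is a subset of `J` (standing for its
characteristic function), and `U` is open iff each point `x` of `U` has a finite set `F` of
coordinates such that every point agreeing with `x` on `F` lies in `U`. -/
def IsCube {M : Type} (E : M → M → Prop) (J P S : M) : Prop :=
  (∀ x, E x P ↔ Sub E x J) ∧ ∀ U, E U S ↔ Sub E U P ∧ ∀ x, E x U → ∃ F, IsFin E F ∧ Sub E F J ∧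
    ∀ y, E y P → (∀ j, E j F → (E j y ↔ E j x)) → E y U

theorem result (M : Type) (E : M → M → Prop) (h : IsZF E) (ℛ : Reals E) (J P S : M)
    (c : IsCube E J P S) : StrZD ℛ P S := Pool.Agent.H40.Zt.cube_szd h ℛ c.1 c.2

end Pool.Agent.Results.MP_fa4505_lc.Yes
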